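import Mathlib

set_option autoImplicit false

namespace Pool.Agent.K9h67.QN

set_option linter.unusedSectionVars false

open Function

/-- Points: four coordinates in a field `K`, and a coordinate in `ZMod l`. -/
abbrev V (K : Type) := K × K × K × K

variable {K : Type} [Field K] [CharP K 2]

/-- the affine unipotent map with superdiagonal `(x, x, x, x^4)` -/
def aff (x α β γ δ ε ζ : K) (v : V K) : V K :=
  (v.1 + x * v.2.1 + α * v.2.2.1 + β * v.2.2.2 + γ,
   v.2.1 + x * v.2.2.1 + δ * v.2.2.2 + ε,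
   v.2.2.1 + x * v.2.2.2 + ζ,
   v.2.2.2 + x ^ 4)

def e1 : V K := (1, 0, 0, 0)

lemma aff_add_e1 (x α β γ δ ε ζ : K) (v : V K) :
    aff x α β γ δ ε ζ (v + e1) = aff x α β γ δ ε ζ v + e1 := by
  obtain ⟨a, b, c, d⟩ := v
  simp only [aff, e1, Prod.mk_add_mk, add_zero, Prod.mk.injEq, and_true]
  ring

lemma aff_comp (x α β γ δ ε ζ x' α' β' γ' δ' ε' ζ' : K) (v : V K) :
    aff x α β γ δ ε ζ (aff x' α' β' γ' δ' ε' ζ' v) =
      aff (x + x') (α' + x * x' + α) (β' + x * δ' + α * x' + β)
        (γ' + x * ε' + α * ζ' + β * x' ^ 4 + γ)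
        (δ' + x * x' + δ) (ε' + x * ζ' + δ * x' ^ 4 + ε) (ζ' + x * x' ^ 4 + ζ) v := by
  obtain ⟨a, b, c, d⟩ := v
  have h4 : (x + x') ^ 4 = x ^ 4 + x' ^ 4 := by
    have := add_pow_char_pow (R := K) (p := 2) (n := 2) x x'
    simpa using this
  simp only [aff, Prod.mk.injEq]
  refine ⟨by ring, by ring, by ring, ?_⟩
  rw [h4]; ring

/-- `P` is, over the affine unipotent map with parameter `x`, a translation in the last
coordinate by a function that is anti-invariant under `v ↦ v + e1`. -/
def Good (l : ℕ) (x : K) (P : Equiv.Perm (V K × ZMod l)) : Prop :=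
  ∃ α β γ δ ε ζ : K, ∃ s : V K → ZMod l, (∀ v, s (v + e1) = - s v) ∧
    ∀ v c, P (v, c) = (aff x α β γ δ ε ζ v, c + s v)

lemma Good.mul {l : ℕ} {x x' : K} {P P' : Equiv.Perm (V K × ZMod l)}
    (h : Good l x P) (h' : Good l x' P') : Good l (x + x') (P * P') := by
  obtain ⟨α, β, γ, δ, ε, ζ, s, hs, hP⟩ := h
  obtain ⟨α', β', γ', δ', ε', ζ', s', hs', hP'⟩ := h'
  refine ⟨α' + x * x' + α, β' + x * δ' + α * x' + β,
    γ' + x * ε' + α * ζ' + β * x' ^ 4 + γ,
    δ' + x * x' + δ, ε' + x * ζ' + δ * x' ^ 4 + ε, ζ' + x * x' ^ 4 + ζ,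
    fun v => s' v + s (aff x' α' β' γ' δ' ε' ζ' v), ?_, ?_⟩
  · intro v
    simp only [hs', aff_add_e1, hs]
    ring
  · intro v c
    rw [Equiv.Perm.mul_apply, hP', hP, aff_comp]
    simp only [add_assoc]

lemma Good.one {l : ℕ} : Good l (0 : K) (1 : Equiv.Perm (V K × ZMod l)) := by
  refine ⟨0, 0, 0, 0, 0, 0, fun _ => 0, by simp, ?_⟩
  intro v c
  simp [aff]

lemma two_eq_zero' : (2 : K) = 0 := by
  have := CharP.cast_eq_zero K 2
  simpa using this

lemma aff_sq (x α β γ δ ε ζ : K) (v : V K) :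
    aff x α β γ δ ε ζ (aff x α β γ δ ε ζ v) =
      aff 0 (x ^ 2) (x * (δ + α)) (x * ε + α * ζ + β * x ^ 4) (x ^ 2)
        (x * ζ + δ * x ^ 4) (x ^ 5) v := by
  have h2 : (2 : K) = 0 := two_eq_zero'
  rw [aff_comp]
  congr 1
  · linear_combination x * h2
  · linear_combination α * h2
  · linear_combination β * h2
  · linear_combination γ * h2
  · linear_combination δ * h2
  · linear_combination ε * h2
  · linear_combination ζ * h2

lemma aff_four {x : K} (hx : x ^ 7 = 1) (α β γ δ ε ζ : K) (v : V K) :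
    aff x α β γ δ ε ζ (aff x α β γ δ ε ζ (aff x α β γ δ ε ζ (aff x α β γ δ ε ζ v))) =
      v + e1 := by
  rw [aff_sq x α β γ δ ε ζ v, aff_sq x α β γ δ ε ζ, aff_sq]
  obtain ⟨a, b, c, d⟩ := v
  simp only [aff, e1, Prod.mk_add_mk, Prod.mk.injEq]
  refine ⟨?_, ?_, ?_, ?_⟩
  · ring_nf
    rw [hx, add_comm]
  · ring
  · ring
  · ring

lemma Good.pow_eight {l : ℕ} {x : K} {P : Equiv.Perm (V K × ZMod l)}
    (hx : x ^ 7 = 1) (h : Good l x P) : P ^ 8 = 1 := by
  have h4 : ∃ t : V K → ZMod l, (∀ v, t (v + e1) = - t v) ∧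
      ∀ v c, (P ^ 4) (v, c) = (v + e1, c + t v) := by
    obtain ⟨α, β, γ, δ, ε, ζ, s, hs, hP⟩ := h
    have h2 : (2 : K) = 0 := two_eq_zero'
    have hxx : x + x = 0 := by rw [← two_mul, h2, zero_mul]
    refine ⟨fun v => s v + s (aff x α β γ δ ε ζ v) +
      s (aff x α β γ δ ε ζ (aff x α β γ δ ε ζ v)) +
      s (aff x α β γ δ ε ζ (aff x α β γ δ ε ζ (aff x α β γ δ ε ζ v))), ?_, ?_⟩
    · intro v
      simp only [aff_add_e1, hs]
      ring
    · intro v c
      have e4 : (P ^ 4) (v, c) = P (P (P (P (v, c)))) := by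
        simp [pow_succ]
      rw [e4, hP, hP, hP, hP]
      refine Prod.ext (aff_four hx α β γ δ ε ζ v) ?_
      · simp only
        ring
  obtain ⟨t, ht, hP⟩ := h4
  ext1 ⟨v, c⟩
  have e8 : (P ^ 8) (v, c) = (P ^ 4) ((P ^ 4) (v, c)) := by
    rw [← Equiv.Perm.mul_apply, ← pow_add]
  rw [e8, hP, hP]
  have h2 : (2 : K) = 0 := two_eq_zero'
  refine Prod.ext ?_ ?_
  · obtain ⟨a, b, cc, d⟩ := v
    simp only [e1, Prod.mk_add_mk, add_zero, Equiv.Perm.coe_one, id_eq, Prod.mk.injEq, and_true]
    linear_combination h2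
  · simp [ht]

lemma Good.pow {l : ℕ} {x : K} {P : Equiv.Perm (V K × ZMod l)} (h : Good l x P) (m : ℕ) :
    Good l ((m : K) * x) (P ^ m) := by
  induction m with
  | zero => simpa using Good.one
  | succ n ih =>
    have := ih.mul h
    rw [pow_succ]
    convert this using 1
    push_cast; ring

lemma Good.inv [Finite K] {l : ℕ} [NeZero l] {x : K} {P : Equiv.Perm (V K × ZMod l)}
    (h : Good l x P) : Good l x P⁻¹ := by
  have hpos : 0 < orderOf P := orderOf_pos P
  have h1 : P⁻¹ = P ^ (2 * orderOf P - 1) := by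
    rw [eq_comm, ← mul_eq_one_iff_eq_inv, ← pow_succ]
    have : 2 * orderOf P - 1 + 1 = orderOf P * 2 := by omega
    rw [this, pow_mul, pow_orderOf_eq_one, one_pow]
  rw [h1]
  have := h.pow (2 * orderOf P - 1)
  convert this using 1
  have h2 : (2 : K) = 0 := two_eq_zero'
  have : ((2 * orderOf P - 1 : ℕ) : K) + 1 = 0 := by
    have h3 : ((2 * orderOf P - 1 + 1 : ℕ) : K) = ((2 * orderOf P : ℕ) : K) := by
      congr 1; omega
    push_cast at h3
    rw [h3, h2, zero_mul]
  linear_combination (-x) * this + x * h2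

/-- the generating permutation -/
noncomputable def gen [Finite K] (l : ℕ) [NeZero l] (x : K) (s : V K → ZMod l) :
    Equiv.Perm (V K × ZMod l) :=
  Equiv.ofBijective (fun p => (aff x 0 0 0 0 0 0 p.1, p.2 + s p.1)) (by
    rw [← Finite.injective_iff_bijective]
    rintro ⟨⟨a, b, c, d⟩, e⟩ ⟨⟨a', b', c', d'⟩, e'⟩ h
    simp only [aff, Prod.mk.injEq] at h
    obtain ⟨⟨h1, h2, h3, h4⟩, h5⟩ := h
    have hd : d = d' := by linear_combination h4
    subst hd
    have hc : c = c' := by linear_combination h3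
    subst hc
    have hb : b = b' := by linear_combination h2
    subst hb
    have ha : a = a' := by linear_combination h1
    subst ha
    simpa using h5)

lemma gen_apply [Finite K] (l : ℕ) [NeZero l] (x : K) (s : V K → ZMod l) (v : V K) (c : ZMod l) :
    gen l x s (v, c) = (aff x 0 0 0 0 0 0 v, c + s v) := rfl

lemma gen_good [Finite K] (l : ℕ) [NeZero l] (x : K) (s : V K → ZMod l)
    (hs : ∀ v, s (v + e1) = - s v) : Good l x (gen l x s) :=
  ⟨0, 0, 0, 0, 0, 0, s, hs, fun _ _ => rfl⟩

open Classical in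
/-- the basic anti-invariant function -/
noncomputable def s0 (l : ℕ) (v : V K) : ZMod l := if v = 0 then 1 else if v = e1 then -1 else 0

lemma e1_add_e1 : (e1 : V K) + e1 = 0 := by
  have h2 : (2 : K) = 0 := two_eq_zero'
  simp only [e1, Prod.mk_add_mk, add_zero, Prod.mk_eq_zero, and_true]
  linear_combination h2

lemma e1_ne_zero : (e1 : V K) ≠ 0 := by
  intro h
  have := congrArg Prod.fst h
  simp [e1] at this

lemma s0_anti (l : ℕ) (v : V K) : s0 l (v + e1) = - s0 l v := by
  unfold s0
  by_cases h0 : v = 0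
  · subst h0
    simp [e1_ne_zero]
  by_cases h1 : v = e1
  · subst h1
    simp [e1_ne_zero, e1_add_e1]
  · have h2 : v + e1 ≠ 0 := by
      intro h
      apply h1
      have : v + e1 + e1 = 0 + e1 := by rw [h]
      rwa [add_assoc, e1_add_e1, add_zero, zero_add] at this
    have h3 : v + e1 ≠ e1 := by
      intro h
      apply h0
      simpa using h
    simp [h0, h1, h2, h3]

/-! ### The field with eight elements and the representation -/

abbrev K8 : Type := GaloisField 2 3

abbrev F3 : Type := FreeGroup (Fin 3)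

lemma finrank_K8 : Module.finrank (ZMod 2) K8 = 3 := GaloisField.finrank 2 (by norm_num)

noncomputable def bas : Module.Basis (Fin 3) (ZMod 2) K8 :=
  Module.finBasisOfFinrankEq (ZMod 2) K8 finrank_K8

lemma pow_seven {x : K8} (hx : x ≠ 0) : x ^ 7 = 1 := by
  have hc : Nat.card K8 = 8 := by
    have := GaloisField.card 2 3 (by norm_num)
    simpa using this
  have : Fintype K8 := Fintype.ofFinite K8
  have h := FiniteField.pow_card_sub_one_eq_one x hx
  rw [← Nat.card_eq_fintype_card, hc] at h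
  simpa using h

/-- the mod 2 abelianisation of `F3`, with values in the field with eight elements -/
noncomputable def chi : F3 →* Multiplicative K8 :=
  FreeGroup.lift (fun i => Multiplicative.ofAdd (bas i))

/-- the representation by permutations -/
noncomputable def rho (l : ℕ) [NeZero l] : F3 →* Equiv.Perm (V K8 × ZMod l) :=
  FreeGroup.lift (fun i => gen l (bas i) (if i = 0 then s0 l else fun _ => 0))

lemma rho_good (l : ℕ) [NeZero l] (w : F3) : Good l (chi w).toAdd (rho l w) := by
  induction w using FreeGroup.induction_on with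
  | C1 => simpa using Good.one
  | of i =>
    simp only [chi, rho, FreeGroup.lift_apply_of, toAdd_ofAdd]
    apply gen_good
    intro v
    split_ifs
    · exact s0_anti l v
    · simp
  | inv_of i h =>
    have := h.inv
    have h2 : (2 : K8) = 0 := two_eq_zero'
    rw [map_inv chi, map_inv (rho l), toAdd_inv]
    convert this using 1
    linear_combination (-(chi (FreeGroup.of i)).toAdd) * h2
  | mul x y hx hy =>
    rw [map_mul chi, map_mul (rho l), toAdd_mul]
    exact hx.mul hy

lemma rho_pow_eight (l : ℕ) [NeZero l] (w : F3) (hw : (chi w).toAdd ≠ 0) :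
    (rho l w) ^ 8 = 1 :=
  (rho_good l w).pow_eight (pow_seven hw)

/-- The image of a basis element under an automorphism is nonzero in the mod 2 abelianisation. -/
lemma chi_aut_ne_zero (α : MulAut F3) : (chi (α (FreeGroup.of 1))).toAdd ≠ 0 := by
  intro h0
  classical
  set S : Finset K8 := {(chi (α (FreeGroup.of 0))).toAdd, (chi (α (FreeGroup.of 2))).toAdd} with hS
  -- everything lies in the span of S
  have hspan : ∀ w : F3, (chi (α w)).toAdd ∈ Submodule.span (ZMod 2) (S : Set K8) := by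
    intro w
    induction w using FreeGroup.induction_on with
    | C1 => simp
    | of i =>
      fin_cases i
      · exact Submodule.subset_span (by simp [hS])
      · simp only [Fin.mk_one]
        rw [h0]; exact Submodule.zero_mem _
      · exact Submodule.subset_span (by simp [hS])
    | inv_of i h =>
      rw [map_inv α, map_inv chi, toAdd_inv]
      exact Submodule.neg_mem _ h
    | mul x y hx hy =>
      rw [map_mul α, map_mul chi, toAdd_mul]
      exact Submodule.add_mem _ hx hy
  have htop : Submodule.span (ZMod 2) (S : Set K8) = ⊤ := by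
    rw [eq_top_iff, ← bas.span_eq, Submodule.span_le]
    rintro _ ⟨i, rfl⟩
    have := hspan (α⁻¹ (FreeGroup.of i))
    rw [MulAut.apply_inv_self] at this
    simpa [chi] using this
  have hle : Module.finrank (ZMod 2) (Submodule.span (ZMod 2) (S : Set K8)) ≤ 2 := by
    exact (finrank_span_finset_le_card (R := ZMod 2) S).trans Finset.card_le_two
  rw [htop, finrank_top, finrank_K8] at hle
  omega

/-! ### Two special elements -/

lemma rho_of (l : ℕ) [NeZero l] (i : Fin 3) (v : V K8) (c : ZMod l) :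
    rho l (FreeGroup.of i) (v, c) =
      (aff (bas i) 0 0 0 0 0 0 v, c + (if i = 0 then s0 l else fun _ => 0) v) := by
  simp only [rho, FreeGroup.lift_apply_of]
  rfl

lemma bas_ne_zero (i : Fin 3) : bas i ≠ 0 := bas.ne_zero i

/-- `a₂⁴` acts as `(v, c) ↦ (v + e1, c)` -/
lemma rho_two_four (l : ℕ) [NeZero l] (v : V K8) (c : ZMod l) :
    rho l (FreeGroup.of 2 ^ 4) (v, c) = (v + e1, c) := by
  have e4 : rho l (FreeGroup.of 2 ^ 4) (v, c) =
      rho l (FreeGroup.of 2) (rho l (FreeGroup.of 2) (rho l (FreeGroup.of 2)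
        (rho l (FreeGroup.of 2) (v, c)))) := by
    simp [pow_succ]
  have h20 : (2 : Fin 3) ≠ 0 := by decide
  rw [e4, rho_of, rho_of, rho_of, rho_of]
  simp only [h20, if_false, add_zero]
  rw [aff_four (pow_seven (bas_ne_zero 2))]

/-- `a₀⁴` at the two points over `0` and `e1`. -/
lemma rho_zero_four (l : ℕ) [NeZero l] :
    (∀ c, rho l (FreeGroup.of 0 ^ 4) ((0 : V K8), c) = ((e1 : V K8), c + 1)) ∧
    (∀ c, rho l (FreeGroup.of 0 ^ 4) ((e1 : V K8), c) = ((0 : V K8), c - 1)) := by
  have e4 : ∀ p, rho l (FreeGroup.of 0 ^ 4) p =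
      rho l (FreeGroup.of 0) (rho l (FreeGroup.of 0) (rho l (FreeGroup.of 0)
        (rho l (FreeGroup.of 0) p))) := by
    intro p
    simp [pow_succ]
  have hx := bas_ne_zero 0
  have hx7 := pow_seven hx
  set x := bas 0 with hxdef
  have h2 : (2 : K8) = 0 := two_eq_zero'
  have step : ∀ (v : V K8) (c : ZMod l), rho l (FreeGroup.of 0) (v, c) =
      (aff x 0 0 0 0 0 0 v, c + s0 l v) := by
    intro v c
    rw [rho_of]; simp [hxdef]
  have A1 : aff x 0 0 0 0 0 0 (0 : V K8) = (0, 0, 0, x ^ 4) := by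
    simp [aff]
  have A2 : aff x 0 0 0 0 0 0 ((0, 0, 0, x ^ 4) : V K8) = (0, 0, x ^ 5, 0) := by
    simp only [aff, Prod.mk.injEq]
    refine ⟨by ring, by ring, by ring, ?_⟩
    linear_combination x ^ 4 * h2
  have A3 : aff x 0 0 0 0 0 0 ((0, 0, x ^ 5, 0) : V K8) = (0, x ^ 6, x ^ 5, x ^ 4) := by
    simp only [aff, Prod.mk.injEq]
    refine ⟨by ring, by ring, by ring, by ring⟩
  have hne4 : x ^ 4 ≠ 0 := pow_ne_zero _ hx
  have hne5 : x ^ 5 ≠ 0 := pow_ne_zero _ hx
  have S0 : s0 l (0 : V K8) = 1 := by simp [s0]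
  have S1 : s0 l ((0, 0, 0, x ^ 4) : V K8) = 0 := by
    unfold s0
    rw [if_neg, if_neg]
    · intro h; apply hne4; simpa [e1] using h
    · intro h; apply hne4; simpa using h
  have S2 : s0 l ((0, 0, x ^ 5, 0) : V K8) = 0 := by
    unfold s0
    rw [if_neg, if_neg]
    · intro h; apply hne5; simpa [e1] using h
    · intro h; apply hne5; simpa using h
  have S3 : s0 l ((0, x ^ 6, x ^ 5, x ^ 4) : V K8) = 0 := by
    unfold s0
    rw [if_neg, if_neg]
    · intro h
      have := congrArg (fun v : V K8 => v.2.2.2) h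
      simp [e1] at this
      exact hx this
    · intro h
      have := congrArg (fun v : V K8 => v.2.2.2) h
      simp at this
      exact hx this
  have key : aff x 0 0 0 0 0 0 (aff x 0 0 0 0 0 0 (aff x 0 0 0 0 0 0 (aff x 0 0 0 0 0 0
      (0 : V K8)))) = e1 := by
    rw [aff_four hx7, zero_add]
  constructor
  · intro c
    rw [e4, step, step, step, step]
    rw [A1, A2, A3] at key
    rw [A1, A2, A3, key, S0, S1, S2, S3]
    simp
  · intro c
    have hz : (e1 : V K8) = 0 + e1 := by rw [zero_add]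
    rw [e4, step, step, step, step]
    rw [A1, A2, A3] at key
    rw [hz]
    simp only [aff_add_e1, s0_anti]
    rw [A1, A2, A3, key, S0, S1, S2, S3, e1_add_e1]
    simp [sub_eq_add_neg]

/-- the element acting as a translation of the fibres -/
def t : F3 := FreeGroup.of 0 ^ 4 * (FreeGroup.of 2 ^ 4)⁻¹

lemma rho_t (l : ℕ) [NeZero l] :
    (∀ c, rho l t ((0 : V K8), c) = (0, c - 1)) ∧
    (∀ c, rho l t ((e1 : V K8), c) = (e1, c + 1)) := by
  have hz := rho_zero_four l
  constructor
  · intro c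
    rw [t, map_mul, Equiv.Perm.mul_apply, map_inv]
    have : (rho l (FreeGroup.of 2 ^ 4))⁻¹ ((0 : V K8), c) = (e1, c) := by
      rw [Equiv.Perm.inv_eq_iff_eq, rho_two_four, e1_add_e1]
    rw [this, hz.2]
  · intro c
    rw [t, map_mul, Equiv.Perm.mul_apply, map_inv]
    have : (rho l (FreeGroup.of 2 ^ 4))⁻¹ ((e1 : V K8), c) = (0, c) := by
      rw [Equiv.Perm.inv_eq_iff_eq, rho_two_four, zero_add]
    rw [this, hz.1]

lemma rho_t_pow (l : ℕ) [NeZero l] (k : ℕ) :
    (∀ c, rho l (t ^ k) ((0 : V K8), c) = (0, c - k)) ∧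
    (∀ c, rho l (t ^ k) ((e1 : V K8), c) = (e1, c + k)) := by
  induction k with
  | zero => simp
  | succ n ih =>
    have h := rho_t l
    constructor
    · intro c
      rw [pow_succ, map_mul, Equiv.Perm.mul_apply, h.1, ih.1]
      push_cast; congr 1; ring
    · intro c
      rw [pow_succ, map_mul, Equiv.Perm.mul_apply, h.2, ih.2]
      push_cast; congr 1; ring

/-- conjugates of `a₂⁴` by powers of `t` are distinct -/
lemma rho_conj (l : ℕ) [NeZero l] (k : ℕ) (c : ZMod l) :
    rho l ((t ^ k)⁻¹ * FreeGroup.of 2 ^ 4 * t ^ k) ((0 : V K8), c) = (e1, c - 2 * k) := by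
  rw [map_mul, map_mul, Equiv.Perm.mul_apply, Equiv.Perm.mul_apply, (rho_t_pow l k).1,
    rho_two_four, map_inv, Equiv.Perm.inv_eq_iff_eq, zero_add, (rho_t_pow l k).2]
  congr 1; ring

/-! ### The action of the automorphism group -/

/-- homomorphisms to the finite group killing 8th powers of the orbit of `a₁` -/
abbrev X (l : ℕ) : Type :=
  {f : F3 →* Equiv.Perm (V K8 × ZMod l) // ∀ α : MulAut F3, f (α (FreeGroup.of 1)) ^ 8 = 1}

instance (l : ℕ) [NeZero l] : Finite (X l) := by
  have : Finite (F3 →* Equiv.Perm (V K8 × ZMod l)) :=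
    Finite.of_equiv _ (FreeGroup.lift (α := Fin 3) (β := Equiv.Perm (V K8 × ZMod l)))
  infer_instance

/-- precomposition action -/
def act (l : ℕ) : MulAut F3 →* Equiv.Perm (X l) where
  toFun β :=
    { toFun := fun f => ⟨f.1.comp (MulEquiv.toMonoidHom β⁻¹), fun α => f.2 (β⁻¹ * α)⟩
      invFun := fun f => ⟨f.1.comp (MulEquiv.toMonoidHom β), fun α => f.2 (β * α)⟩
      left_inv := by
        intro f
        apply Subtype.ext
        ext w : 1
        simp
      right_inv := by
        intro f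
        apply Subtype.ext
        ext w : 1
        simp }
  map_one' := by
    ext f : 1
    apply Subtype.ext
    ext w : 1
    simp
  map_mul' := by
    intro β γ
    ext f : 1
    apply Subtype.ext
    ext w : 1
    simp

/-- the Nielsen move `a₀ ↦ a₁ a₀` -/
def sigHom : F3 →* F3 :=
  FreeGroup.lift (fun i => if i = 0 then FreeGroup.of 1 * FreeGroup.of 0 else FreeGroup.of i)

def sigInv : F3 →* F3 :=
  FreeGroup.lift (fun i => if i = 0 then (FreeGroup.of 1)⁻¹ * FreeGroup.of 0 else FreeGroup.of i)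

def sig : MulAut F3 :=
  MonoidHom.toMulEquiv sigHom sigInv
    (by
      ext i
      simp only [MonoidHom.comp_apply, sigHom, FreeGroup.lift_apply_of, MonoidHom.id_apply]
      by_cases hi : i = 0
      · subst hi
        simp [sigInv]
      · simp [hi, sigInv])
    (by
      ext i
      simp only [MonoidHom.comp_apply, sigInv, FreeGroup.lift_apply_of, MonoidHom.id_apply]
      by_cases hi : i = 0
      · subst hi
        simp [sigHom]
      · simp [hi, sigHom])

lemma sig_zero : sig (FreeGroup.of 0) = FreeGroup.of 1 * FreeGroup.of 0 := by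
  simp [sig, sigHom]

lemma sig_ne {k : Fin 3} (hk : k ≠ 0) : sig (FreeGroup.of k) = FreeGroup.of k := by
  simp [sig, sigHom, hk]

lemma sig_pow_zero (m : ℕ) :
    (sig ^ m) (FreeGroup.of 0) = FreeGroup.of 1 ^ m * FreeGroup.of 0 := by
  induction m with
  | zero => simp
  | succ n ih =>
    rw [pow_succ', MulAut.mul_apply, ih, map_mul, map_pow, sig_zero, sig_ne (by decide),
      ← mul_assoc, pow_succ]

lemma sig_pow_ne (m : ℕ) {k : Fin 3} (hk : k ≠ 0) :
    (sig ^ m) (FreeGroup.of k) = FreeGroup.of k := by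
  induction m with
  | zero => simp
  | succ n ih => rw [pow_succ', MulAut.mul_apply, ih, sig_ne hk]

lemma act_sig (l : ℕ) : act l (sig ^ 8) = 1 := by
  rw [← inv_eq_one, ← map_inv]
  ext f : 1
  apply Subtype.ext
  ext i : 1
  change f.1 ((sig ^ 8)⁻¹⁻¹ (FreeGroup.of i)) = f.1 (FreeGroup.of i)
  rw [inv_inv]
  by_cases hi : i = 0
  · subst hi
    have h := f.2 1
    rw [MulAut.one_apply] at h
    rw [sig_pow_zero, map_mul, map_pow, h, one_mul]
  · rw [sig_pow_ne 8 hi]

abbrev Q : Type := MulAut F3 ⧸ Subgroup.normalClosure ({sig ^ 8} : Set (MulAut F3))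

/-- the induced action of the quotient group -/
def actQ (l : ℕ) : Q →* Equiv.Perm (X l) :=
  QuotientGroup.lift _ (act l) (by
    intro x hx
    have : Subgroup.normalClosure ({sig ^ 8} : Set (MulAut F3)) ≤ (act l).ker := by
      apply Subgroup.normalClosure_le_normal
      rw [Set.singleton_subset_iff]
      exact act_sig l
    exact this hx)

/-- the base point -/
noncomputable def f0 (l : ℕ) [NeZero l] : X l :=
  ⟨rho l, fun α => rho_pow_eight l _ (chi_aut_ne_zero α)⟩

/-- inner automorphisms give many elements of the image -/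
lemma act_conj_inj (l : ℕ) [NeZero l] (hl : Odd l) :
    Function.Injective (fun k : Fin l => act l (MulAut.conj (t ^ (k : ℕ)))) := by
  intro j k h
  have h1 := congrArg (fun P : Equiv.Perm (X l) => (P (f0 l)).1 (FreeGroup.of 2 ^ 4)
    ((0 : V K8), (0 : ZMod l))) h
  have h2 : ∀ k : ℕ, (act l (MulAut.conj (t ^ k)) (f0 l)).1 (FreeGroup.of 2 ^ 4)
      ((0 : V K8), (0 : ZMod l)) = (e1, 0 - 2 * (k : ZMod l)) := by
    intro k
    rw [← rho_conj l k 0]
    change rho l ((MulAut.conj (t ^ k))⁻¹ (FreeGroup.of 2 ^ 4)) _ = _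
    rw [← map_inv, MulAut.conj_apply, inv_inv]
  simp only [h2, Prod.mk.injEq, true_and, zero_sub, neg_inj] at h1
  have hu : IsUnit ((2 : ℕ) : ZMod l) := by
    rw [ZMod.isUnit_iff_coprime]
    exact hl.coprime_two_left
  push_cast at hu
  have h3 := hu.mul_left_cancel h1
  rw [ZMod.natCast_eq_natCast_iff] at h3
  exact Fin.ext (Nat.ModEq.eq_of_lt_of_lt h3 j.2 k.2)

lemma index_ge (l : ℕ) [NeZero l] (hl : Odd l) : l ≤ (actQ l).ker.index := by
  rw [Subgroup.index_ker]
  have : Finite (actQ l).range := inferInstance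
  have hinj : Function.Injective (fun k : Fin l =>
      (⟨actQ l (QuotientGroup.mk (MulAut.conj (t ^ (k : ℕ)))), ⟨_, rfl⟩⟩ : (actQ l).range)) := by
    intro j k h
    apply act_conj_inj l hl
    have := congrArg Subtype.val h
    simpa [actQ] using this
  have := Nat.card_le_card_of_injective _ hinj
  simpa using this

theorem main : Set.Infinite {N : Subgroup Q | N.Normal ∧ N.FiniteIndex} := by
  intro hfin
  obtain ⟨B, hB⟩ := (hfin.image (fun N : Subgroup Q => N.index)).bddAbove
  have : NeZero (2 * B + 1) := ⟨by omega⟩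
  have h1 := index_ge (2 * B + 1) (by simp)
  have hmem : (actQ (2 * B + 1)).ker ∈ {N : Subgroup Q | N.Normal ∧ N.FiniteIndex} := by
    refine ⟨inferInstance, ?_⟩
    have : Finite (actQ (2 * B + 1)).range := inferInstance
    exact ⟨by rw [Subgroup.index_ker]; exact Nat.card_pos.ne'⟩
  have h2 := hB (Set.mem_image_of_mem (fun N : Subgroup Q => N.index) hmem)

  omega

end Pool.Agent.K9h67.QN
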